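import Mathlib
import Pool.Agent.Run7.h80.Comp.Lau
import Pool.Agent.Run7.h80.Sym.Seg

/-!
# The pairwise inequality for all Laurent polynomials
-/

set_option autoImplicit false

open Polynomial

namespace Pool.Agent.Run7.h80.Bd

open Pool.Agent.Run7.h80.Comp Pool.Agent.Run7.h80.Sym

/-- the point on the segment -/
noncomputable def zz (s t : ℂ) (y : ℝ) : ℂ := (1 - y) * s + y * t

/-- exterior form of the pairwise inequality -/
theorem pair_ext {P : ℂ[X]} {n : ℕ} (hd : 1 ≤ P.natDegree) (hn : 2 * n ≤ P.natDegree) (s t : ℂ)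
    {y : ℝ} (hy0 : 0 ≤ y) (hy1 : y ≤ 1) :
    ‖P.leadingCoeff‖ * (P - C (zz s t y) * X ^ n).mahlerMeasure ≤
      (P - C s * X ^ n).mahlerMeasure * (P - C t * X ^ n).mahlerMeasure := by
  set d := P.natDegree with hdd
  have hP0 : P ≠ 0 := by
    rintro rfl
    simp at hdd
    omega
  have hlt : ∀ z : ℂ, (C z * X ^ n : ℂ[X]).natDegree < P.natDegree := fun z =>
    lt_of_le_of_lt (natDegree_C_mul_X_pow_le z n) (by omega)
  have hdeg : ∀ z : ℂ, (P - C z * X ^ n).natDegree = d := fun z => by
    rw [natDegree_sub_eq_left_of_natDegree_lt (hlt z)]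
  have hrev : ∀ z : ℂ, (P - C z * X ^ n).reverse = P.reverse - C z * X ^ (d - n) := by
    intro z
    ext j
    rw [coeff_reverse, hdeg, coeff_sub, coeff_sub, coeff_C_mul, coeff_C_mul, coeff_reverse,
      coeff_X_pow, coeff_X_pow, ← hdd]
    congr 2
    rcases le_or_gt j d with h | h
    · rw [revAt_le h]
      by_cases hj : j = d - n
      · rw [if_pos hj, if_pos (by omega)]
      · rw [if_neg hj, if_neg (by omega)]
    · rw [revAt_eq_self_of_lt h, if_neg (by omega), if_neg (by omega)]
  have hM : ∀ z : ℂ, (P - C z * X ^ n).mahlerMeasure =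
      (P.reverse - C z * X ^ (d - n)).mahlerMeasure := fun z => by
    rw [← hrev, mahlerMeasure_reverse]
  have h1 := pair_inner_complex (P := P.reverse) (a := d - n) (by omega)
    (by
      have := reverse_natDegree_le P
      omega) (by rw [coeff_zero_reverse]; exact leadingCoeff_ne_zero.2 hP0) s t hy0 hy1
  rw [coeff_zero_reverse] at h1
  rw [zz, hM, hM, hM]
  exact h1

/-- the polynomial `A - z X ^ n` -/
noncomputable def pn (A : ℤ[X]) (n : ℕ) (z : ℂ) : ℂ[X] := A.map (Int.castRingHom ℂ) - C z * X ^ n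

lemma pn_coeff (A : ℤ[X]) (n : ℕ) (z : ℂ) (j : ℕ) :
    (pn A n z).coeff j = (A.coeff j : ℂ) - if j = n then z else 0 := by
  rw [pn, coeff_sub, coeff_map, coeff_C_mul, coeff_X_pow]
  split_ifs <;> simp

/-- the pair inequality and the lower bound -/
def PI (A : ℤ[X]) (n : ℕ) : Prop :=
  (∀ z : ℂ, 1 ≤ (pn A n z).mahlerMeasure) ∧
  ∀ (s t : ℂ) (y : ℝ), 0 ≤ y → y ≤ 1 → (pn A n (zz s t y)).mahlerMeasure ≤
    (pn A n s).mahlerMeasure * (pn A n t).mahlerMeasure

lemma one_le_norm_int' {k : ℤ} (h : k ≠ 0) : 1 ≤ ‖(k : ℂ)‖ := by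
  rw [Complex.norm_intCast]
  exact_mod_cast Int.one_le_abs h

lemma PI_inner {A : ℤ[X]} {n : ℕ} (hn : 0 < n) (h0 : A.coeff 0 ≠ 0) (hd : A.natDegree ≤ 2 * n) :
    PI A n := by
  have hc : ∀ z, (pn A n z).coeff 0 = (A.coeff 0 : ℂ) := fun z => by
    rw [pn_coeff, if_neg (by omega), sub_zero]
  have h1 := one_le_norm_int' h0
  constructor
  · intro z
    have h3 := norm_coeff_le_choose_mul_mahlerMeasure 0 (pn A n z)
    rw [hc, Nat.choose_zero_right, Nat.cast_one, one_mul] at h3
    linarith
  · intro s t y hy0 hy1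
    have h2 := pair_inner_complex (P := A.map (Int.castRingHom ℂ)) hn
      (natDegree_map_le.trans hd) (by
        rw [coeff_map, eq_intCast]
        exact fun h => h0 (by exact_mod_cast h)) s t hy0 hy1
    rw [coeff_map, eq_intCast] at h2
    refine le_trans ?_ h2
    exact le_mul_of_one_le_left (mahlerMeasure_nonneg _) h1

lemma PI_outer {A : ℤ[X]} {n : ℕ} (hd1 : 1 ≤ A.natDegree) (hd : 2 * n ≤ A.natDegree) :
    PI A n := by
  have hA0 : A ≠ 0 := by
    rintro rfl
    simp at hd1
  have hdm : (A.map (Int.castRingHom ℂ)).natDegree = A.natDegree :=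
    natDegree_map_eq_of_injective (Int.castRingHom ℂ).injective_int A
  have hlc : (A.map (Int.castRingHom ℂ)).leadingCoeff = (A.leadingCoeff : ℂ) := by
    rw [leadingCoeff_map_of_injective (Int.castRingHom ℂ).injective_int]
    rfl
  have h1 := one_le_norm_int' (leadingCoeff_ne_zero.2 hA0)
  constructor
  · intro z
    have h3 := leadingCoeff_le_mahlerMeasure (pn A n z)
    have h4 : (pn A n z).leadingCoeff = (A.leadingCoeff : ℂ) := by
      rw [pn, leadingCoeff_sub_of_degree_lt, hlc]
      apply degree_lt_degree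
      refine lt_of_le_of_lt (natDegree_C_mul_X_pow_le z n) ?_
      rw [hdm]
      omega
    rw [h4] at h3
    linarith
  · intro s t y hy0 hy1
    have h2 := pair_ext (P := A.map (Int.castRingHom ℂ)) (n := n) (by rw [hdm]; exact hd1)
      (by rw [hdm]; exact hd) s t hy0 hy1
    rw [hlc] at h2
    refine le_trans ?_ h2
    exact le_mul_of_one_le_left (mahlerMeasure_nonneg _) h1

lemma mahler_X_pow_mul (P : ℂ[X]) (l : ℕ) : (X ^ l * P).mahlerMeasure = P.mahlerMeasure := by
  have h1 : (X : ℂ[X]).mahlerMeasure = 1 := by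
    have := mahlerMeasure_X_sub_C (0 : ℂ)
    rw [C_0, sub_zero, norm_zero] at this
    rw [this]
    simp
  induction l with
  | zero => rw [pow_zero, one_mul]
  | succ l ih =>
    rw [pow_succ, mul_right_comm, mahlerMeasure_mul, ih, h1, mul_one]

/-- **the pairwise inequality for all Laurent polynomials** -/
theorem PI_all {A : ℤ[X]} {n : ℕ} (h : ∀ c : ℤ, A ≠ C c * X ^ n) : PI A n := by
  have hA0 : A ≠ 0 := by
    intro h0
    apply h 0
    rw [h0]
    simp
  by_cases h1 : 1 ≤ A.natDegree ∧ 2 * n ≤ A.natDegree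
  · exact PI_outer h1.1 h1.2
  set l := A.natTrailingDegree with hl
  obtain ⟨A', hA'⟩ : X ^ l ∣ A := by
    rw [X_pow_dvd_iff]
    intro d hd'
    exact coeff_eq_zero_of_lt_natTrailingDegree hd'
  have hA'0 : A'.coeff 0 ≠ 0 := by
    have h3 : A.coeff l ≠ 0 := mt trailingCoeff_eq_zero.1 hA0
    rw [hA', coeff_X_pow_mul', if_pos le_rfl, Nat.sub_self] at h3
    exact h3
  have hA'ne : A' ≠ 0 := by
    rintro rfl
    simp at hA'0
  have hdA : A.natDegree = l + A'.natDegree := by
    rw [hA', natDegree_mul (pow_ne_zero _ X_ne_zero) hA'ne, natDegree_X_pow]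
  have transfer : ∀ (B : ℤ[X]) (m a b : ℕ), a + n = b + m → X ^ a * A = X ^ b * B → PI B m →
      PI A n := by
    intro B m a b hab hAB hB
    have e : ∀ z : ℂ, (pn A n z).mahlerMeasure = (pn B m z).mahlerMeasure := by
      intro z
      rw [← mahler_X_pow_mul (pn A n z) a, ← mahler_X_pow_mul (pn B m z) b]
      congr 1
      have h4 := congrArg (Polynomial.map (Int.castRingHom ℂ)) hAB
      rw [Polynomial.map_mul, Polynomial.map_mul, Polynomial.map_pow, Polynomial.map_pow,
        map_X] at h4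
      rw [pn, pn, mul_sub, mul_sub, h4]
      congr 1
      have h5 : (X : ℂ[X]) ^ a * (C z * X ^ n) = C z * X ^ (a + n) := by
        rw [pow_add]
        ring
      have h6 : (X : ℂ[X]) ^ b * (C z * X ^ m) = C z * X ^ (b + m) := by
        rw [pow_add]
        ring
      rw [h5, h6, hab]
    refine ⟨fun z => by rw [e]; exact hB.1 z, fun s t y hy0 hy1 => ?_⟩
    rw [e, e, e]
    exact hB.2 s t y hy0 hy1
  rcases lt_trichotomy l n with hln | hln | hln
  · have htr := transfer A' (n - l) 0 l (by omega) (by rw [pow_zero, one_mul]; exact hA')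
    apply htr
    rcases le_or_gt A'.natDegree (2 * (n - l)) with h2 | h2
    · exact PI_inner (by omega) hA'0 h2
    · exact PI_outer (by omega) h2.le
  · have htr := transfer A' 0 0 l (by omega) (by rw [pow_zero, one_mul]; exact hA')
    apply htr
    apply PI_outer _ (by omega)
    by_contra hcon
    have h2 : A'.natDegree = 0 := by omega
    apply h (A'.coeff 0)
    rw [hA', hln]
    conv_lhs => rw [eq_C_of_natDegree_eq_zero h2]
    ring
  · have htr := transfer (X ^ (l - n) * A') 0 0 n (by omega) (by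
      rw [pow_zero, one_mul, ← mul_assoc, ← pow_add, hA']
      congr 2
      omega)
    apply htr
    apply PI_outer _ (by omega)
    rw [natDegree_mul (pow_ne_zero _ X_ne_zero) hA'ne, natDegree_X_pow]
    omega

end Pool.Agent.Run7.h80.Bd
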