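import Mathlib
import Pool.Agent.H261R2.CM.D
import Pool.Agent.Run7.h80.Bd.Pair

/-!
# The average over a segment
-/

set_option autoImplicit false

open Polynomial MeasureTheory

namespace Pool.Agent.Run7.h80.Bd

open Pool.Agent.H261R2.CM

lemma phi_eq (v : ℝ) : ENNReal.ofReal (Real.posLog |v|⁻¹) =
    (Set.Ioc (-1 : ℝ) 1).indicator (fun v => ENNReal.ofReal (-Real.log v)) v := by
  by_cases hv : v ∈ Set.Ioc (-1 : ℝ) 1
  · rw [Set.indicator_of_mem hv]
    congr 1
    rcases eq_or_ne v 0 with rfl | h0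
    · simp
    · have h1 : |v| ≤ 1 := abs_le.2 ⟨hv.1.le, hv.2⟩
      have h2 : 0 < |v| := abs_pos.2 h0
      rw [Real.posLog_eq_log, Real.log_inv, Real.log_abs]
      rw [abs_inv, abs_abs]
      exact (one_le_inv₀ h2).2 h1
  · rw [Set.indicator_of_notMem hv]
    have h1 : 1 ≤ |v| := by
      rw [Set.mem_Ioc, not_and_or] at hv
      push Not at hv
      rcases hv with h | h
      · rw [abs_of_nonpos (by linarith)]
        linarith
      · rw [abs_of_pos (by linarith)]
        linarith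
    have h2 : Real.posLog |v|⁻¹ = 0 := by
      rw [Real.posLog_eq_zero_iff, abs_inv, abs_abs]
      exact inv_le_one_of_one_le₀ h1
    rw [h2, ENNReal.ofReal_zero]

lemma lintegral_phi : ∫⁻ v : ℝ, ENNReal.ofReal (Real.posLog |v|⁻¹) = ENNReal.ofReal 2 := by
  simp only [phi_eq]
  rw [lintegral_indicator measurableSet_Ioc, ← ofReal_integral_eq_lintegral_ofReal]
  · congr 1
    rw [← intervalIntegral.integral_of_le (by norm_num), intervalIntegral.integral_neg, integral_log]
    simp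
    norm_num
  · have h1 : IntervalIntegrable (fun v : ℝ => -Real.log v) volume (-1) 1 :=
      (intervalIntegral.intervalIntegrable_log').neg
    exact (intervalIntegrable_iff_integrableOn_Ioc_of_le (by norm_num)).1 h1
  · filter_upwards [ae_restrict_mem measurableSet_Ioc] with v hv
    have h1 : |v| ≤ 1 := abs_le.2 ⟨hv.1.le, hv.2⟩
    have h2 : Real.log v ≤ 0 := by
      rw [← Real.log_abs]
      exact Real.log_nonpos (abs_nonneg _) h1
    simp only [Pi.zero_apply]
    linarith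

lemma measurable_phi : Measurable fun v : ℝ => ENNReal.ofReal (Real.posLog |v|⁻¹) := by
  have : Measurable Real.posLog := Real.continuous_posLog.measurable
  fun_prop

lemma inner_le {s t : ℂ} (hst : s ≠ t) (w : ℂ) :
    ∫⁻ y in Set.Icc (0 : ℝ) 1, ENNReal.ofReal (Real.posLog ‖w - zz s t y‖⁻¹) ≤
      ENNReal.ofReal (2 / ‖t - s‖) := by
  set R := ‖t - s‖ with hR
  have hts : t - s ≠ 0 := sub_ne_zero.2 hst.symm
  have hR0 : 0 < R := norm_pos_iff.2 hts
  set y0 := ((w - s) / (t - s)).re with hy0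
  have hle : ∀ y : ℝ, R * |y - y0| ≤ ‖w - zz s t y‖ := by
    intro y
    have h1 : w - zz s t y = (t - s) * ((w - s) / (t - s) - y) := by
      rw [zz, mul_sub, mul_div_cancel₀ _ hts]
      ring
    rw [h1, norm_mul, ← hR]
    apply mul_le_mul_of_nonneg_left _ hR0.le
    have h2 := Complex.abs_re_le_norm ((w - s) / (t - s) - y)
    rwa [Complex.sub_re, Complex.ofReal_re, ← hy0, abs_sub_comm] at h2
  calc ∫⁻ y in Set.Icc (0 : ℝ) 1, ENNReal.ofReal (Real.posLog ‖w - zz s t y‖⁻¹)
      ≤ ∫⁻ y : ℝ, ENNReal.ofReal (Real.posLog ‖w - zz s t y‖⁻¹) := lintegral_mono' Measure.restrict_le_self le_rfl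
    _ ≤ ∫⁻ y : ℝ, ENNReal.ofReal (Real.posLog |R * (y - y0)|⁻¹) := by
        apply lintegral_mono_ae
        have h0 : ∀ᵐ y : ℝ, y ≠ y0 := by
          rw [ae_iff]
          simp
        filter_upwards [h0] with y hy
        apply ENNReal.ofReal_le_ofReal
        have h1 : 0 < |y - y0| := abs_pos.2 (sub_ne_zero.2 hy)
        apply Real.posLog_le_posLog (by positivity)
        rw [abs_mul, abs_of_pos hR0]
        exact inv_anti₀ (by positivity) (hle y)
    _ = ∫⁻ y : ℝ, ENNReal.ofReal (Real.posLog |R * y|⁻¹) :=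
        lintegral_sub_right_eq_self (fun y => ENNReal.ofReal (Real.posLog |R * y|⁻¹)) y0
    _ = ∫⁻ v, ENNReal.ofReal (Real.posLog |v|⁻¹) ∂(Measure.map (fun y => R * y) volume) := by
        rw [lintegral_map measurable_phi (by fun_prop)]
    _ = ENNReal.ofReal (2 / R) := by
        rw [Real.map_volume_mul_left hR0.ne', lintegral_smul_measure, lintegral_phi, smul_eq_mul,
          abs_of_pos (inv_pos.2 hR0), ← ENNReal.ofReal_mul (inv_nonneg.2 hR0.le)]
        congr 1
        field_simp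

lemma intervalIntegrable_log_eval (P : ℂ[X]) :
    IntervalIntegrable (fun τ => Real.log ‖P.eval (ez τ)‖) volume 0 1 := by
  have h := intervalIntegrable_mahlerMeasure P
  have h2 := h.comp_mul_left (c := 2 * Real.pi)
  have hpi : (2 * Real.pi : ℝ) ≠ 0 := by positivity
  rw [zero_div, div_self hpi] at h2
  have h3 : (fun τ => Real.log ‖P.eval (ez τ)‖) =
      fun τ => Real.log ‖P.eval (circleMap 0 1 (2 * Real.pi * τ))‖ := by
    ext τ
    simp only [D_ez_eq]
  rw [h3]
  exact h2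

lemma log_mahler_eq (P : ℂ[X]) :
    Real.log P.mahlerMeasure = ∫ τ in (0:ℝ)..1, Real.log ‖P.eval (ez τ)‖ := by
  rw [← logMahlerMeasure_eq_log_MahlerMeasure, logMahlerMeasure_def,
    D_circleAverage (fun z => Real.log ‖P.eval z‖)]

lemma continuous_posLog_eval (P : ℂ[X]) :
    Continuous fun τ : ℝ => Real.posLog ‖P.eval (ez τ)‖ := by
  have h1 := D_continuous_ez
  have h2 : Continuous fun τ : ℝ => P.eval (ez τ) := P.continuous.comp h1
  exact Real.continuous_posLog.comp h2.norm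

/-- **a good center on every segment** -/
theorem exists_center {A : ℂ[X]} {n : ℕ} {s t : ℂ} (hst : s ≠ t) {β : ℝ}
    (hβ : ∀ y : ℝ, 0 ≤ y → y ≤ 1 → Real.log (A - C (zz s t y) * X ^ n).mahlerMeasure ≤ β) :
    ∃ y : ℝ, 0 ≤ y ∧ y ≤ 1 ∧
      ∫ τ in (0:ℝ)..1, Real.posLog ‖(A - C (zz s t y) * X ^ n).eval (ez τ)‖ ≤
        β + 2 / ‖t - s‖ := by
  have hts : t - s ≠ 0 := sub_ne_zero.2 hst.symm
  have hR0 : 0 < ‖t - s‖ := norm_pos_iff.2 hts
  have hez := D_continuous_ez
  set f : ℝ → ℝ → ENNReal := fun y τ =>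
    ENNReal.ofReal (Real.posLog ‖(A - C (zz s t y) * X ^ n).eval (ez τ)‖⁻¹) with hf
  have hmeas : Measurable (Function.uncurry f) := by
    have hc : Continuous fun q : ℝ × ℝ => (A - C (zz s t q.1) * X ^ n).eval (ez q.2) := by
      have h1 : (fun q : ℝ × ℝ => (A - C (zz s t q.1) * X ^ n).eval (ez q.2)) =
          fun q : ℝ × ℝ => A.eval (ez q.2) - zz s t q.1 * ez q.2 ^ n := by
        ext q
        simp
      rw [h1]
      have h2 : Continuous fun q : ℝ × ℝ => A.eval (ez q.2) :=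
        A.continuous.comp (hez.comp continuous_snd)
      have h3 : Continuous fun q : ℝ × ℝ => zz s t q.1 := by
        unfold zz
        fun_prop
      exact h2.sub (h3.mul ((hez.comp continuous_snd).pow n))
    have h4 : Measurable Real.posLog := Real.continuous_posLog.measurable
    have h5 : Measurable fun q : ℝ × ℝ => ‖(A - C (zz s t q.1) * X ^ n).eval (ez q.2)‖⁻¹ :=
      hc.norm.measurable.inv
    exact ENNReal.measurable_ofReal.comp (h4.comp h5)
  have hinner : ∀ τ : ℝ, ∫⁻ y in Set.Icc (0 : ℝ) 1, f y τ ≤ ENNReal.ofReal (2 / ‖t - s‖) := by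
    intro τ
    have h0 : ez τ ≠ 0 := by
      rw [← norm_ne_zero_iff, D_norm_ez]
      norm_num
    have h1 : ∀ y : ℝ, ‖(A - C (zz s t y) * X ^ n).eval (ez τ)‖ =
        ‖A.eval (ez τ) / ez τ ^ n - zz s t y‖ := by
      intro y
      have h2 : (A - C (zz s t y) * X ^ n).eval (ez τ) =
          (A.eval (ez τ) / ez τ ^ n - zz s t y) * ez τ ^ n := by
        have := pow_ne_zero n h0
        simp
        field_simp
      rw [h2, norm_mul, norm_pow, D_norm_ez, one_pow, mul_one]
    simp only [hf, h1]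
    exact inner_le hst _
  have hswap : ∫⁻ y in Set.Icc (0 : ℝ) 1, ∫⁻ τ in Set.Ioc (0 : ℝ) 1, f y τ =
      ∫⁻ τ in Set.Ioc (0 : ℝ) 1, ∫⁻ y in Set.Icc (0 : ℝ) 1, f y τ :=
    lintegral_lintegral_swap hmeas.aemeasurable
  have htot : ∫⁻ y in Set.Icc (0 : ℝ) 1, ∫⁻ τ in Set.Ioc (0 : ℝ) 1, f y τ ≤
      ENNReal.ofReal (2 / ‖t - s‖) := by
    rw [hswap]
    calc _ ≤ ∫⁻ _ in Set.Ioc (0 : ℝ) 1, ENNReal.ofReal (2 / ‖t - s‖) :=
          lintegral_mono fun τ => hinner τ
      _ = ENNReal.ofReal (2 / ‖t - s‖) := by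
          rw [setLIntegral_const, Real.volume_Ioc]
          simp
  have hmf : Measurable fun y => ∫⁻ τ in Set.Ioc (0 : ℝ) 1, f y τ :=
    Measurable.lintegral_prod_right hmeas
  obtain ⟨y, hy, hle⟩ := exists_le_setLAverage (μ := volume) (s := Set.Icc (0 : ℝ) 1)
    (f := fun y => ∫⁻ τ in Set.Ioc (0 : ℝ) 1, f y τ) (by simp) (by simp) hmf.aemeasurable
  rw [setLAverage_eq, Real.volume_Icc, sub_zero, ENNReal.ofReal_one, div_one] at hle
  have hle2 := hle.trans htot
  refine ⟨y, hy.1, hy.2, ?_⟩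
  set P : ℂ[X] := A - C (zz s t y) * X ^ n with hP
  have hci : IntervalIntegrable (fun τ => Real.posLog ‖P.eval (ez τ)‖) volume 0 1 :=
    (continuous_posLog_eval P).intervalIntegrable _ _
  have hli := intervalIntegrable_log_eval P
  have hii : IntervalIntegrable (fun τ => Real.posLog ‖P.eval (ez τ)‖⁻¹) volume 0 1 := by
    have h1 : (fun τ => Real.posLog ‖P.eval (ez τ)‖⁻¹) =
        fun τ => Real.posLog ‖P.eval (ez τ)‖ - Real.log ‖P.eval (ez τ)‖ := by
      ext τ
      have := Real.posLog_sub_posLog_inv (x := ‖P.eval (ez τ)‖)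
      linarith
    rw [h1]
    exact hci.sub hli
  have h1 : ∫ τ in (0:ℝ)..1, Real.posLog ‖P.eval (ez τ)‖ =
      (∫ τ in (0:ℝ)..1, Real.log ‖P.eval (ez τ)‖) +
        ∫ τ in (0:ℝ)..1, Real.posLog ‖P.eval (ez τ)‖⁻¹ := by
    rw [← intervalIntegral.integral_add hli hii]
    apply intervalIntegral.integral_congr
    intro τ _
    have := Real.posLog_sub_posLog_inv (x := ‖P.eval (ez τ)‖)
    simp only
    linarith
  have h2 : ∫ τ in (0:ℝ)..1, Real.posLog ‖P.eval (ez τ)‖⁻¹ ≤ 2 / ‖t - s‖ := by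
    rw [intervalIntegral.integral_of_le zero_le_one,
      integral_eq_lintegral_of_nonneg_ae (Filter.Eventually.of_forall fun τ => Real.posLog_nonneg)
        ((intervalIntegrable_iff_integrableOn_Ioc_of_le zero_le_one).1 hii).aestronglyMeasurable]
    exact ENNReal.toReal_le_of_le_ofReal (by positivity) hle2
  have h3 := hβ y hy.1 hy.2
  rw [log_mahler_eq] at h3
  rw [h1]
  linarith

end Pool.Agent.Run7.h80.Bd
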