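import Mathlib
import Pool.Agent.Run7.h80.Comp.CompC
import Pool.Agent.Run7.h80.Sym.NT

/-!
# Separation of the zeros of an irreducible polynomial
-/

set_option autoImplicit false

open Polynomial

namespace Pool.Agent.Run7.h80.Bd

open Pool.Agent.Run7.h80.Comp Pool.Agent.Run7.h80.Sym

lemma no_rational {g : ℤ[X]} (hg : Irreducible g) (h2 : 2 ≤ g.natDegree) (c : ℚ) :
    (c : ℂ) ∉ rts g := by
  intro h
  obtain ⟨q, hq⟩ := lin_dvd (isRoot_rat h)
  have hq0 : q ≠ 0 := by
    rintro rfl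
    rw [mul_zero] at hq
    exact hg.ne_zero hq
  rcases hg.isUnit_or_isUnit hq with h1 | h1
  · have := natDegree_eq_zero_of_isUnit h1
    rw [lin_natDegree] at this
    omega
  · have h3 := natDegree_eq_zero_of_isUnit h1
    have h4 := congrArg natDegree hq
    rw [natDegree_mul (lin_ne_zero c) hq0, lin_natDegree, h3] at h4
    omega

lemma norm_sum_sub_le {T : Multiset ℂ} {t : ℂ} {ε : ℝ} (h : ∀ s ∈ T, ‖s - t‖ ≤ ε) :
    ‖T.sum - Multiset.card T * t‖ ≤ Multiset.card T * ε := by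
  induction T using Multiset.induction_on with
  | empty => simp
  | cons a T ih =>
    have h1 := ih fun s hs => h s (Multiset.mem_cons_of_mem hs)
    have h2 := h a (Multiset.mem_cons_self a T)
    rw [Multiset.sum_cons, Multiset.card_cons]
    push_cast
    have e : a + T.sum - (Multiset.card T + 1) * t = (a - t) + (T.sum - Multiset.card T * t) := by
      ring
    rw [e]
    refine (norm_add_le _ _).trans ?_
    linarith

lemma prod_le_pow {T : Multiset ℂ} {F : ℂ → ℝ} {r : ℝ} (h0 : ∀ t ∈ T, 0 ≤ F t)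
    (h : ∀ t ∈ T, F t ≤ r) : 0 ≤ (T.map F).prod ∧ (T.map F).prod ≤ r ^ Multiset.card T := by
  induction T using Multiset.induction_on with
  | empty => simp
  | cons a T ih =>
    obtain ⟨i0, i1⟩ := ih (fun t ht => h0 t (Multiset.mem_cons_of_mem ht))
      (fun t ht => h t (Multiset.mem_cons_of_mem ht))
    have h2 := h0 a (Multiset.mem_cons_self a T)
    have h3 := h a (Multiset.mem_cons_self a T)
    rw [Multiset.map_cons, Multiset.prod_cons, Multiset.card_cons, pow_succ, mul_comm]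
    exact ⟨mul_nonneg i0 h2, mul_le_mul i1 h3 h2 (i0.trans i1)⟩

/-- **two zeros are not too close** -/
theorem sep {g : ℤ[X]} (hg : Irreducible g) (h2 : 2 ≤ g.natDegree) {B D : ℝ}
    (hB : |(g.leadingCoeff : ℝ)| ≤ B) (hD : (g.natDegree : ℝ) ≤ D) :
    ∃ s ∈ rts g, ∃ t ∈ rts g, (2 * B ^ 2 * D)⁻¹ < ‖t - s‖ := by
  by_contra hcon
  push Not at hcon
  have hlc := leadingCoeff_ne_zero.2 hg.ne_zero
  have ha1 : (1 : ℝ) ≤ |(g.leadingCoeff : ℝ)| := by exact_mod_cast Int.one_le_abs hlc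
  have hB1 : 1 ≤ B := ha1.trans hB
  have hd2 : (2 : ℝ) ≤ g.natDegree := by exact_mod_cast h2
  have hD0 : 0 < D := by linarith
  set d := g.natDegree with hd
  set a := g.leadingCoeff with ha
  set ε := (2 * B ^ 2 * D)⁻¹ with hε
  have hε0 : 0 < ε := by positivity
  have hsum : (g.nextCoeff : ℂ) = -(a : ℂ) * (rts g).sum := by
    have h1 := (IsAlgClosed.splits (g.map (Int.castRingHom ℂ))).nextCoeff_eq_neg_sum_roots_mul_leadingCoeff
    rw [nextCoeff_map inj, leadingCoeff_map_of_injective inj, eq_intCast, eq_intCast] at h1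
    exact h1
  have key : ∀ t ∈ rts g, ‖((-g.nextCoeff : ℤ) : ℂ) - t * ((a * d : ℤ) : ℂ)‖ ≤ 1 / (2 * B) := by
    intro t ht
    have e : ((-g.nextCoeff : ℤ) : ℂ) - t * ((a * d : ℤ) : ℂ) =
        (a : ℂ) * ((rts g).sum - Multiset.card (rts g) * t) := by
      rw [card_rts]
      push_cast
      rw [hsum]
      ring
    rw [e, norm_mul, Complex.norm_intCast]
    have h3 := norm_sum_sub_le (T := rts g) (t := t) (ε := ε) fun s hs => hcon t ht s hs
    rw [card_rts] at h3 ⊢
    calc |(a : ℝ)| * ‖(rts g).sum - d * t‖ ≤ B * (D * ε) := by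
          apply mul_le_mul hB _ (norm_nonneg _) (by linarith)
          exact h3.trans (mul_le_mul_of_nonneg_right hD hε0.le)
      _ = 1 / (2 * B) := by
          rw [hε]
          field_simp
  have hne : ∀ t ∈ rts g, ((-g.nextCoeff : ℤ) : ℂ) - t * ((a * d : ℤ) : ℂ) ≠ 0 := by
    intro t ht h0
    have hq : ((a * d : ℤ) : ℂ) ≠ 0 := by
      have h5 : (a * d : ℤ) ≠ 0 := mul_ne_zero hlc (by omega)
      exact_mod_cast h5
    have h3 : t = (((-g.nextCoeff : ℤ) : ℚ) / ((a * d : ℤ) : ℚ) : ℚ) := by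
      have h6 : t * ((a * d : ℤ) : ℂ) = ((-g.nextCoeff : ℤ) : ℂ) := by linear_combination -h0
      rw [Rat.cast_div, Rat.cast_intCast, Rat.cast_intCast, eq_div_iff hq]
      exact h6
    rw [h3] at ht
    exact no_rational hg h2 _ ht
  have h4 := one_le_form hg.ne_zero (-g.nextCoeff) (a * d) hne
  have h5 := prod_le_pow (T := rts g)
    (F := fun t => ‖((-g.nextCoeff : ℤ) : ℂ) - t * ((a * d : ℤ) : ℂ)‖) (fun t _ => norm_nonneg _) key
  rw [card_rts] at h5
  have h6 : (1 / (2 * B)) ^ g.natDegree ≤ 1 / (2 * B) := by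
    have h7 : 1 / (2 * B) ≤ 1 := by
      rw [div_le_one (by linarith)]
      linarith
    calc (1 / (2 * B)) ^ g.natDegree ≤ (1 / (2 * B)) ^ 1 :=
          pow_le_pow_of_le_one (by positivity) h7 (by omega)
      _ = _ := pow_one _
  have h8 : |(a : ℝ)| * ((rts g).map
      fun t => ‖((-g.nextCoeff : ℤ) : ℂ) - t * ((a * d : ℤ) : ℂ)‖).prod ≤ B * (1 / (2 * B)) :=
    mul_le_mul hB (h5.2.trans h6) h5.1 (by linarith)
  have h9 : B * (1 / (2 * B)) = 1 / 2 := by field_simp
  have h10 : (1 : ℝ) ≤ |(a : ℝ)| * ((rts g).map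
      fun t => ‖((-g.nextCoeff : ℤ) : ℂ) - t * ((a * d : ℤ) : ℂ)‖).prod := h4
  linarith

end Pool.Agent.Run7.h80.Bd
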