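import Mathlib
import Pool.Agent.Run7.h80.Bd.Avg
import Pool.Agent.Run7.h80.Bd.Sep
import Pool.Agent.H261R2.CM.Defs2

/-!
# Bounded companions in one variable
-/

set_option autoImplicit false

open Polynomial MeasureTheory

namespace Pool.Agent.Run7.h80.Bd

open Pool.Agent.Run7.h80.Comp Pool.Agent.Run7.h80.Sym Pool.Agent.H261R2.CM

/-- the integral of the positive part of the logarithm -/
noncomputable def pl (P : ℂ[X]) : ℝ := ∫ τ in (0:ℝ)..1, Real.posLog ‖P.eval (ez τ)‖

lemma pl_integrable (P : ℂ[X]) :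
    IntervalIntegrable (fun τ => Real.posLog ‖P.eval (ez τ)‖) volume 0 1 :=
  (continuous_posLog_eval P).intervalIntegrable _ _

lemma pl_nonneg (P : ℂ[X]) : 0 ≤ pl P :=
  intervalIntegral.integral_nonneg zero_le_one fun τ _ => Real.posLog_nonneg

lemma pl_mono {P : ℂ[X]} {f : ℝ → ℝ} (hf : IntervalIntegrable f volume 0 1)
    (h : ∀ τ, Real.posLog ‖P.eval (ez τ)‖ ≤ f τ) : pl P ≤ ∫ τ in (0:ℝ)..1, f τ :=
  intervalIntegral.integral_mono_on zero_le_one (pl_integrable P) hf fun τ _ => h τ

lemma pl_mul (P Q : ℂ[X]) : pl (P * Q) ≤ pl P + pl Q := by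
  have h0 : pl P + pl Q = ∫ τ in (0:ℝ)..1, (Real.posLog ‖P.eval (ez τ)‖ +
      Real.posLog ‖Q.eval (ez τ)‖) := by
    rw [intervalIntegral.integral_add (pl_integrable P) (pl_integrable Q)]
    rfl
  rw [h0]
  apply pl_mono ((pl_integrable P).add (pl_integrable Q))
  intro τ
  rw [eval_mul, norm_mul]
  exact Real.posLog_mul

lemma pl_C (a : ℂ) : pl (C a) = Real.posLog ‖a‖ := by
  simp [pl]

lemma pl_prod (T : Multiset ℂ) (f : ℂ → ℂ[X]) {c : ℝ} (h : ∀ t ∈ T, pl (f t) ≤ c) :
    pl (T.map f).prod ≤ Multiset.card T * c := by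
  induction T using Multiset.induction_on with
  | empty =>
    rw [Multiset.map_zero, Multiset.prod_zero, ← C_1, pl_C]
    simp
  | cons a T ih =>
    have h1 := ih fun t ht => h t (Multiset.mem_cons_of_mem ht)
    have h2 := h a (Multiset.mem_cons_self a T)
    rw [Multiset.map_cons, Multiset.prod_cons, Multiset.card_cons]
    refine (pl_mul _ _).trans ?_
    push_cast
    linarith

lemma norm_ez_pow (τ : ℝ) (n : ℕ) : ‖ez τ ^ n‖ = 1 := by rw [norm_pow, D_norm_ez, one_pow]

/-- moving the center -/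
lemma pl_move (A : ℤ[X]) (n : ℕ) (z w : ℂ) :
    pl (pn A n w) ≤ pl (pn A n z) + Real.posLog ‖z - w‖ + Real.log 2 := by
  have h1 : ∫ τ in (0:ℝ)..1, (Real.posLog ‖(pn A n z).eval (ez τ)‖ +
      (Real.posLog ‖z - w‖ + Real.log 2)) = pl (pn A n z) + (Real.posLog ‖z - w‖ + Real.log 2) := by
    rw [intervalIntegral.integral_add (pl_integrable _) intervalIntegrable_const]
    simp [pl]
  rw [add_assoc, ← h1]
  apply pl_mono ((pl_integrable _).add intervalIntegrable_const)
  intro τ
  have e : (pn A n w).eval (ez τ) = (pn A n z).eval (ez τ) + (z - w) * ez τ ^ n := by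
    simp [pn]
    ring
  rw [e]
  have h2 := Real.posLog_norm_add_le ((pn A n z).eval (ez τ)) ((z - w) * ez τ ^ n)
  rw [norm_mul, norm_ez_pow, mul_one] at h2
  linarith

/-- two centers are not far apart -/
lemma pl_dist (A : ℤ[X]) (n : ℕ) (z w : ℂ) :
    Real.posLog ‖z - w‖ ≤ pl (pn A n z) + pl (pn A n w) + Real.log 2 := by
  have h1 : ∫ τ in (0:ℝ)..1, (Real.posLog ‖(pn A n z).eval (ez τ)‖ +
      Real.posLog ‖(pn A n w).eval (ez τ)‖ + Real.log 2) =
      pl (pn A n z) + pl (pn A n w) + Real.log 2 := by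
    rw [intervalIntegral.integral_add ((pl_integrable _).add (pl_integrable _))
      intervalIntegrable_const, intervalIntegral.integral_add (pl_integrable _) (pl_integrable _)]
    simp [pl]
  rw [← h1]
  have h2 : Real.posLog ‖z - w‖ = ∫ _ in (0:ℝ)..1, Real.posLog ‖z - w‖ := by simp
  rw [h2]
  apply intervalIntegral.integral_mono_on zero_le_one intervalIntegrable_const
    (((pl_integrable _).add (pl_integrable _)).add intervalIntegrable_const)
  intro τ _
  have e : (z - w) * ez τ ^ n = (pn A n w).eval (ez τ) + -(pn A n z).eval (ez τ) := by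
    simp [pn]
    ring
  have h3 := Real.posLog_norm_add_le ((pn A n w).eval (ez τ)) (-(pn A n z).eval (ez τ))
  rw [← e, norm_mul, norm_ez_pow, mul_one, norm_neg] at h3
  linarith

/-- a point with a bounded integral on the segment between two points of small measure -/
lemma center {A : ℤ[X]} {n : ℕ} (hPI : PI A n) {s t : ℂ} (hst : s ≠ t) {γ δ : ℝ}
    (hs : Real.log (pn A n s).mahlerMeasure ≤ γ) (ht : Real.log (pn A n t).mahlerMeasure ≤ δ) :
    ∃ y : ℝ, 0 ≤ y ∧ y ≤ 1 ∧ pl (pn A n (zz s t y)) ≤ γ + δ + 2 / ‖t - s‖ ∧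
      Real.log (pn A n (zz s t y)).mahlerMeasure ≤ γ + δ := by
  have hβ : ∀ y : ℝ, 0 ≤ y → y ≤ 1 →
      Real.log (pn A n (zz s t y)).mahlerMeasure ≤ γ + δ := by
    intro y hy0 hy1
    have h1 := hPI.2 s t y hy0 hy1
    have p1 := hPI.1 s
    have p2 := hPI.1 t
    have p3 := hPI.1 (zz s t y)
    have h2 := Real.log_le_log (by linarith) h1
    rw [Real.log_mul (by linarith) (by linarith)] at h2
    linarith
  obtain ⟨y, hy0, hy1, hy⟩ := exists_center (A := A.map (Int.castRingHom ℂ)) (n := n) hst hβ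
  exact ⟨y, hy0, hy1, hy, hβ y hy0 hy1⟩

lemma norm_zz_sub (s t : ℂ) (y : ℝ) : ‖zz s t y - s‖ = |y| * ‖t - s‖ := by
  have : zz s t y - s = (y : ℂ) * (t - s) := by
    rw [zz]
    ring
  rw [this, norm_mul, Complex.norm_real, Real.norm_eq_abs]

/-- the factorisation -/
lemma toC_pcomp (g A : ℤ[X]) (n : ℕ) : toC (pcomp g A (X ^ n)) =
    C (g.leadingCoeff : ℂ) * ((rts g).map fun t => pn A n t).prod := by
  have h1 := map_pcomp (mapRingHom (Int.castRingHom ℂ)) g A (X ^ n)
  rw [coe_mapRingHom, pcomp_prod g (A.map (Int.castRingHom ℂ)) ((X ^ n).map (Int.castRingHom ℂ))]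
    at h1
  rw [toC, h1]
  simp only [algebraMap_eq, Polynomial.map_pow, map_X]
  rfl

lemma le_prod_of_one_le {T : Multiset ℂ} {F : ℂ → ℝ} (h : ∀ t, 1 ≤ F t) :
    1 ≤ (T.map F).prod ∧ ∀ t ∈ T, F t ≤ (T.map F).prod := by
  induction T using Multiset.induction_on with
  | empty => simp
  | cons a T ih =>
    obtain ⟨i1, i2⟩ := ih
    have h1 := h a
    rw [Multiset.map_cons, Multiset.prod_cons]
    refine ⟨by nlinarith, ?_⟩
    intro t ht
    rcases Multiset.mem_cons.1 ht with rfl | ht
    · nlinarith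
    · have := i2 t ht
      have h2 := h t
      nlinarith

/-- **The bound in one variable.** -/
theorem one_bound {B D : ℝ} (hB : 1 ≤ B) (hD : 1 ≤ D) : ∃ K : ℝ, ∀ g : ℤ[X], Irreducible g →
    2 ≤ g.natDegree → (g.natDegree : ℝ) ≤ D → ∀ (A : ℤ[X]) (n : ℕ), PI A n →
      m1 (pcomp g A (X ^ n)) ≤ B → mx1 (pcomp g A (X ^ n)) 1 ≤ K := by
  set β := Real.log B with hβ
  have hβ0 : 0 ≤ β := Real.log_nonneg hB
  set ε := (2 * B ^ 2 * D)⁻¹ with hε
  have hε0 : 0 < ε := by positivity
  set C1 := 2 * β + 2 / ε with hC1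
  have hC10 : 0 ≤ C1 := by positivity
  set L1 := C1 + (3 * β + 4) + 2 * Real.log 2 with hL1
  have hlog2 : 0 < Real.log 2 := Real.log_pos (by norm_num)
  have hL10 : 0 ≤ L1 := by positivity
  refine ⟨β + D * (C1 + L1 + Real.log 2), ?_⟩
  intro g hg h2 hgD A n hPI hM
  have hg0 := hg.ne_zero
  have ha1 : (1 : ℝ) ≤ |(g.leadingCoeff : ℝ)| := by
    exact_mod_cast Int.one_le_abs (leadingCoeff_ne_zero.2 hg0)
  -- the measures of the factors
  have hMM : m1 (pcomp g A (X ^ n)) = |(g.leadingCoeff : ℝ)| *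
      ((rts g).map fun t => (pn A n t).mahlerMeasure).prod := by
    have h1 := MM_pcomp g A (X ^ n)
    rw [Polynomial.map_pow, map_X] at h1
    exact h1
  obtain ⟨p1, p2⟩ := le_prod_of_one_le (T := rts g) (F := fun t => (pn A n t).mahlerMeasure) hPI.1
  rw [hMM] at hM
  have hlead : |(g.leadingCoeff : ℝ)| ≤ B := by
    refine le_trans ?_ hM
    exact le_mul_of_one_le_right (by linarith) p1
  have hβt : ∀ t ∈ rts g, Real.log (pn A n t).mahlerMeasure ≤ β := by
    intro t ht
    apply Real.log_le_log (by linarith [hPI.1 t])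
    refine (p2 t ht).trans (le_trans ?_ hM)
    exact le_mul_of_one_le_left (by linarith) ha1
  obtain ⟨s, hs, t, ht, hst⟩ := sep hg h2 hlead hgD
  rw [← hε] at hst
  have hne : s ≠ t := by
    rintro rfl
    rw [sub_self, norm_zero] at hst
    linarith
  obtain ⟨y, _, _, hy, hyl⟩ := center hPI hne (hβt s hs) (hβt t ht)
  set z0 := zz s t y with hz0
  have hpl0 : pl (pn A n z0) ≤ C1 := by
    refine hy.trans ?_
    have : 2 / ‖t - s‖ ≤ 2 / ε := div_le_div_of_nonneg_left (by norm_num) hε0 hst.le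
    rw [hC1]
    linarith
  -- the distances from the center
  have hdist : ∀ w ∈ rts g, Real.posLog ‖z0 - w‖ ≤ L1 := by
    intro w hw
    rcases le_or_gt ‖z0 - w‖ 1 with h1 | h1
    · have h3 : Real.posLog ‖z0 - w‖ = 0 := by
        rw [Real.posLog_eq_zero_iff, abs_of_nonneg (norm_nonneg _)]
        exact h1
      rw [h3]
      exact hL10
    · have hne2 : z0 ≠ w := by
        rintro h0
        rw [h0, sub_self, norm_zero] at h1
        linarith
      -- the midpoint
      set m := zz z0 w (1 / 2) with hm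
      have hmw : ‖w - m‖ = ‖z0 - w‖ / 2 := by
        have : w - m = ((1 / 2 : ℝ) : ℂ) * (w - z0) := by
          rw [hm, zz]
          push_cast
          ring
        rw [this, norm_mul, Complex.norm_real, norm_sub_rev w z0]
        norm_num
        ring
      have hmne : m ≠ w := by
        intro h0
        rw [h0, sub_self, norm_zero] at hmw
        linarith
      have hml : ∀ y : ℝ, 0 ≤ y → y ≤ 1 →
          Real.log (pn A n (zz m w y)).mahlerMeasure ≤ 3 * β := by
        intro y hy0 hy1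
        have e : zz m w y = zz z0 w ((1 + y) / 2) := by
          rw [hm, zz, zz, zz]
          push_cast
          ring
        rw [e]
        have h3 := hPI.2 z0 w ((1 + y) / 2) (by linarith) (by linarith)
        have q1 := hPI.1 z0
        have q2 := hPI.1 w
        have q3 := hPI.1 (zz z0 w ((1 + y) / 2))
        have h4 := Real.log_le_log (by linarith) h3
        rw [Real.log_mul (by linarith) (by linarith)] at h4
        have h5 := hβt w hw
        linarith
      obtain ⟨y', hy'0, hy'1, hy'⟩ := exists_center (A := A.map (Int.castRingHom ℂ)) (n := n)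
        hmne hml
      set z1 := zz m w y' with hz1
      have hpl1 : pl (pn A n z1) ≤ 3 * β + 4 := by
        refine hy'.trans ?_
        have : 2 / ‖w - m‖ ≤ 4 := by
          rw [hmw, div_le_iff₀ (by linarith)]
          linarith
        linarith
      have hd := pl_dist A n z0 z1
      have hzz : ‖z0 - w‖ ≤ 2 * ‖z0 - z1‖ := by
        have e : z0 - z1 = (((1 + y') / 2 : ℝ) : ℂ) * (z0 - w) := by
          rw [hz1, hm, zz, zz]
          push_cast
          ring
        rw [e, norm_mul, Complex.norm_real, Real.norm_of_nonneg (by linarith)]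
        nlinarith [norm_nonneg (z0 - w)]
      have h6 : Real.posLog ‖z0 - w‖ ≤ Real.posLog (2 * ‖z0 - z1‖) :=
        Real.posLog_le_posLog (norm_nonneg _) hzz
      have h7 : Real.posLog (2 * ‖z0 - z1‖) ≤ Real.log 2 + Real.posLog ‖z0 - z1‖ := by
        have := Real.posLog_nat_mul (n := 2) (x := ‖z0 - z1‖)
        exact_mod_cast this
      rw [hL1]
      linarith
  -- the final estimate
  have hfac : ∀ w ∈ rts g, pl (pn A n w) ≤ C1 + L1 + Real.log 2 := by
    intro w hw
    have h1 := pl_move A n z0 w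
    have h3 := hdist w hw
    linarith
  have hF : pl (toC (pcomp g A (X ^ n))) ≤ β + D * (C1 + L1 + Real.log 2) := by
    rw [toC_pcomp]
    refine (pl_mul _ _).trans ?_
    have h1 := pl_prod (rts g) (fun t => pn A n t) hfac
    rw [card_rts] at h1
    have h3 : pl (C (g.leadingCoeff : ℂ)) ≤ β := by
      rw [pl_C, Complex.norm_intCast, Real.posLog_eq_log (by rw [abs_abs]; exact ha1)]
      exact Real.log_le_log (by linarith) hlead
    have h4 : (g.natDegree : ℝ) * (C1 + L1 + Real.log 2) ≤ D * (C1 + L1 + Real.log 2) :=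
      mul_le_mul_of_nonneg_right hgD (by positivity)
    linarith
  have hmx : mx1 (pcomp g A (X ^ n)) 1 = pl (toC (pcomp g A (X ^ n))) := by
    rw [mx1, pl]
    apply intervalIntegral.integral_congr
    intro τ _
    have e : ev1 1 τ = 1 := by simp [ev1, toC]
    simp only [e, norm_one]
    rw [Real.posLog_eq_log_max_one (norm_nonneg _), max_comm]
    rfl
  rw [hmx]
  exact hF

end Pool.Agent.Run7.h80.Bd
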