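import Mathlib
import Pool.Agent.TH845.KN.B2
import Pool.Agent.Run7.h80.Sym.Full
import Pool.Agent.Run7.h80.Bd.One

/-!
# Compositions with Laurent polynomials in several variables
-/

set_option autoImplicit false

open Polynomial MeasureTheory Filter Topology

namespace Pool.Agent.Run7.h80.Bd

open Pool.Agent.Run7.h80.Comp Pool.Agent.Run7.h80.Sym Pool.Agent.H261R2.CM
open Pool.Agent.TH845.KN (dt dt_add sp sp_coeff sp_coeff_ne spec_eq_sp eventually_sep sp_monomial BC)

lemma excl_poly {A : ℤ[X]} {N : ℕ} {h : LP}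
    (hA : toLaurent A = (LaurentPolynomial.T N : LP) * h) {ε δ c m : ℤ}
    (hh : h = LaurentPolynomial.C ε * LaurentPolynomial.T m +
      LaurentPolynomial.C δ * LaurentPolynomial.T (-m) + LaurentPolynomial.C c) :
    ∃ j a b : ℕ, a + b = 2 * (j + N) ∧
      X ^ j * A = C ε * X ^ a + C δ * X ^ b + C c * X ^ (j + N) := by
  obtain ⟨a, ha⟩ : ∃ a : ℕ, (a : ℤ) = m.natAbs + N + m := ⟨(m.natAbs + N + m).toNat, by omega⟩
  obtain ⟨b, hb⟩ : ∃ b : ℕ, (b : ℤ) = m.natAbs + N - m := ⟨(m.natAbs + N - m).toNat, by omega⟩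
  refine ⟨m.natAbs, a, b, by omega, ?_⟩
  apply toLaurent_injective
  rw [map_mul, hA, hh, map_add, map_add, map_mul, map_mul, map_mul, toLaurent_C, toLaurent_C,
    toLaurent_C, toLaurent_X_pow, toLaurent_X_pow, toLaurent_X_pow, toLaurent_X_pow, ha, hb]
  have e1 : (LaurentPolynomial.T ((m.natAbs : ℤ) + N + m) : LP) =
      LaurentPolynomial.T (m.natAbs : ℤ) * (LaurentPolynomial.T (N : ℤ) * LaurentPolynomial.T m) := by
    rw [← LaurentPolynomial.T_add, ← LaurentPolynomial.T_add]
    congr 1
    ring
  have e2 : (LaurentPolynomial.T ((m.natAbs : ℤ) + N - m) : LP) =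
      LaurentPolynomial.T (m.natAbs : ℤ) *
        (LaurentPolynomial.T (N : ℤ) * LaurentPolynomial.T (-m)) := by
    rw [← LaurentPolynomial.T_add, ← LaurentPolynomial.T_add]
    congr 1
    ring
  have e3 : (LaurentPolynomial.T (((m.natAbs + N : ℕ) : ℤ)) : LP) =
      LaurentPolynomial.T (m.natAbs : ℤ) * LaurentPolynomial.T (N : ℤ) := by
    rw [← LaurentPolynomial.T_add]
    congr 1
  rw [e1, e2, e3]
  ring

/-- the excluded shapes -/
def Excl {k : ℕ} (P : MvPolynomial (Fin k) ℤ) (s : Fin k →₀ ℕ) : Prop :=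
  ∃ (ε δ c : ℤ) (a b : Fin k →₀ ℕ), |ε| = 1 ∧ (δ = 0 ∨ |δ| = 1 ∧ a + b = s + s) ∧
    P = MvPolynomial.monomial a ε + MvPolynomial.monomial b δ + MvPolynomial.monomial s c

lemma spc {k : ℕ} {P : MvPolynomial (Fin k) ℤ} {e : Fin k → ℕ} {S : Finset (Fin k →₀ ℕ)}
    (hS : P.support ⊆ S) (hinj : ∀ x ∈ S, ∀ y ∈ S, dt e x = dt e y → x = y)
    {x : Fin k →₀ ℕ} (hx : x ∈ S) : (spec e P).coeff (dt e x) = P.coeff x := by
  rw [spec_eq_sp]
  by_cases hxs : x ∈ P.support
  · exact sp_coeff e P (fun a ha b hb => hinj a (hS ha) b (hS hb)) x hxs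
  · rw [MvPolynomial.notMem_support_iff.1 hxs]
    by_contra hne
    obtain ⟨y, hy, hyx⟩ := sp_coeff_ne e P _ hne
    have := hinj y (hS hy) x hx hyx
    rw [this] at hy
    exact hxs hy

/-- the substitution preserves the condition on the shape -/
lemma excl_of_spec {k : ℕ} {P : MvPolynomial (Fin k) ℤ} {s : Fin k →₀ ℕ} {e : Fin k → ℕ}
    (hsep : ∀ x ∈ insert s P.support, ∀ y ∈ insert s P.support, ∀ u ∈ insert s P.support,
      ∀ v ∈ insert s P.support, dt e x + dt e y = dt e u + dt e v → x + y = u + v)
    {ε δ c : ℤ} (hε : |ε| = 1) (hδ : |δ| ≤ 1) {j a b : ℕ} (hab : a + b = 2 * (j + dt e s))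
    (he : X ^ j * spec e P = C ε * X ^ a + C δ * X ^ b + C c * X ^ (j + dt e s)) :
    Excl P s := by
  classical
  have hsS : s ∈ insert s P.support := Finset.mem_insert_self _ _
  have hS : P.support ⊆ insert s P.support := Finset.subset_insert _ _
  have hinj : ∀ x ∈ insert s P.support, ∀ y ∈ insert s P.support, dt e x = dt e y → x = y := by
    intro x hx y hy hxy
    have h1 := hsep x hx x hx y hy y hy (by rw [hxy])
    ext i
    have h2 := DFunLike.congr_fun h1 i
    simp only [Finsupp.add_apply] at h2
    omega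
  have hco : ∀ i : ℕ, (spec e P).coeff i = (if i + j = a then ε else 0) +
      (if i + j = b then δ else 0) + (if i = dt e s then c else 0) := by
    intro i
    have h1 := congrArg (fun q : ℤ[X] => q.coeff (i + j)) he
    simp only [coeff_add, coeff_C_mul, coeff_X_pow] at h1
    rw [mul_comm, coeff_mul_X_pow] at h1
    rw [h1]
    have h2 : (i + j = j + dt e s) ↔ i = dt e s := by omega
    simp only [h2]
    split_ifs <;> simp
  have hcoP : ∀ x ∈ insert s P.support, P.coeff x = (if dt e x + j = a then ε else 0) +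
      (if dt e x + j = b then δ else 0) + (if dt e x = dt e s then c else 0) := by
    intro x hx
    rw [← spc hS hinj hx, hco]
  have hε0 : ε ≠ 0 := by
    rintro rfl
    simp at hε
  -- an exponent of the support
  have hget : ∀ i : ℕ, (spec e P).coeff i ≠ 0 → ∃ x ∈ P.support, dt e x = i := by
    intro i hi
    rw [spec_eq_sp] at hi
    exact sp_coeff_ne e P i hi
  by_cases hab2 : a = b
  · -- constants
    have hN : a = j + dt e s := by omega
    have hall : ∀ x ∈ P.support, x = s := by
      intro x hx
      have h1 := hcoP x (hS hx)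
      have h2 := MvPolynomial.mem_support_iff.1 hx
      by_contra hne
      have h3 : dt e x ≠ dt e s := fun h => hne (hinj x (hS hx) s hsS h)
      rw [if_neg (by omega), if_neg (by omega), if_neg h3] at h1
      exact h2 (by simpa using h1)
    refine ⟨1, 0, P.coeff s - 1, s, 0, by norm_num, Or.inl rfl, ?_⟩
    ext x
    rw [MvPolynomial.coeff_add, MvPolynomial.coeff_add, MvPolynomial.coeff_monomial,
      MvPolynomial.coeff_monomial, MvPolynomial.coeff_monomial]
    by_cases hx : s = x
    · rw [if_pos hx, if_pos hx, ← hx]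
      split_ifs <;> ring
    · rw [if_neg hx, if_neg hx]
      have : x ∉ P.support := fun h => hx (hall x h).symm
      rw [MvPolynomial.notMem_support_iff.1 this]
      split_ifs <;> ring
  have hjle : ∀ i : ℕ, i < j → (C ε * X ^ a + C δ * X ^ b + C c * X ^ (j + dt e s) : ℤ[X]).coeff i
      = 0 := by
    intro i hi
    rw [← he, coeff_X_pow_mul', if_neg (by omega)]
  have hcoef : ∀ i : ℕ, (C ε * X ^ a + C δ * X ^ b + C c * X ^ (j + dt e s) : ℤ[X]).coeff i =
      (if i = a then ε else 0) + (if i = b then δ else 0) + (if i = j + dt e s then c else 0) := by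
    intro i
    simp only [coeff_add, coeff_C_mul, coeff_X_pow]
    split_ifs <;> simp
  have haj : j ≤ a := by
    by_contra hlt
    have h1 := hjle a (by omega)
    rw [hcoef, if_pos rfl, if_neg hab2, if_neg (by omega)] at h1
    exact hε0 (by simpa using h1)
  obtain ⟨x, hx, hxa⟩ := hget (a - j) (by
    rw [hco, if_pos (by omega), if_neg (by omega), if_neg (by omega)]
    simpa using hε0)
  have hxs : x ≠ s := by
    rintro rfl
    omega
  have hPx : P.coeff x = ε := by
    rw [hcoP x (hS hx), if_pos (by omega), if_neg (by omega), if_neg (by omega)]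
    ring
  have hPs : P.coeff s = c := by
    rw [hcoP s hsS, if_neg (by omega), if_neg (by omega), if_pos rfl]
    ring
  by_cases hδ0 : δ = 0
  · refine ⟨ε, 0, c, x, 0, hε, Or.inl rfl, ?_⟩
    ext y
    rw [MvPolynomial.coeff_add, MvPolynomial.coeff_add, MvPolynomial.coeff_monomial,
      MvPolynomial.coeff_monomial, MvPolynomial.coeff_monomial, ite_self, add_zero]
    by_cases h1 : x = y
    · rw [if_pos h1, if_neg (by rw [← h1]; exact hxs.symm), ← h1, hPx, add_zero]
    · by_cases h2 : s = y
      · rw [if_neg h1, if_pos h2, ← h2, hPs, zero_add]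
      · rw [if_neg h1, if_neg h2, add_zero]
        by_contra hne
        have hy : y ∈ P.support := MvPolynomial.mem_support_iff.2 hne
        have h3 := hcoP y (hS hy)
        have h4 : dt e y ≠ dt e s := fun h => h2 (hinj y (hS hy) s hsS h).symm
        have h5 : dt e y + j ≠ a := fun h => h1 (hinj y (hS hy) x (hS hx) (by omega)).symm
        rw [if_neg h5, if_neg h4, hδ0] at h3
        apply hne
        rw [h3]
        split_ifs <;> ring
  · have hδ1 : |δ| = 1 := by
      have := Int.one_le_abs hδ0
      omega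
    have hbj : j ≤ b := by
      by_contra hlt
      have h1 := hjle b (by omega)
      rw [hcoef, if_neg (fun h => hab2 h.symm), if_pos rfl, if_neg (by omega)] at h1
      exact hδ0 (by simpa using h1)
    obtain ⟨z, hz, hzb⟩ := hget (b - j) (by
      rw [hco, if_neg (by omega), if_pos (by omega), if_neg (by omega)]
      simpa using hδ0)
    have hzs : z ≠ s := by
      rintro rfl
      omega
    have hxz : x ≠ z := by
      rintro rfl
      omega
    have hPz : P.coeff z = δ := by
      rw [hcoP z (hS hz), if_neg (by omega), if_pos (by omega), if_neg (by omega)]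
      ring
    have hsum := hsep x (hS hx) z (hS hz) s hsS s hsS (by omega)
    refine ⟨ε, δ, c, x, z, hε, Or.inr ⟨hδ1, hsum⟩, ?_⟩
    ext y
    rw [MvPolynomial.coeff_add, MvPolynomial.coeff_add, MvPolynomial.coeff_monomial,
      MvPolynomial.coeff_monomial, MvPolynomial.coeff_monomial]
    by_cases h1 : x = y
    · rw [if_pos h1, if_neg (by rw [← h1]; exact hxz.symm), if_neg (by rw [← h1]; exact hxs.symm),
        ← h1, hPx]
      ring
    · by_cases h2 : s = y
      · rw [if_neg h1, if_neg (by rw [← h2]; exact hzs), if_pos h2, ← h2, hPs]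
        ring
      · by_cases h3 : z = y
        · rw [if_neg h1, if_pos h3, if_neg h2, ← h3, hPz]
          ring
        · rw [if_neg h1, if_neg h2, if_neg h3]
          have : P.coeff y = 0 := by
            by_contra hne
            have hy : y ∈ P.support := MvPolynomial.mem_support_iff.2 hne
            have h4 := hcoP y (hS hy)
            have h5 : dt e y ≠ dt e s := fun h => h2 (hinj y (hS hy) s hsS h).symm
            have h6 : dt e y + j ≠ a := fun h => h1 (hinj y (hS hy) x (hS hx) (by omega)).symm
            have h7 : dt e y + j ≠ b := fun h => h3 (hinj y (hS hy) z (hS hz) (by omega)).symm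
            rw [if_neg h6, if_neg h7, if_neg h5] at h4
            exact hne (by simpa using h4)
          rw [this]
          ring

/-- the limit formula of Boyd and Lawton along an independent sequence -/
theorem boyd_lawton {k : ℕ} (e : ℕ → Fin k → ℕ) (he : AsympIndep atTop e)
    (F : MvPolynomial (Fin k) ℤ) (hF : F ≠ 0) :
    Tendsto (fun n => m1 (spec (e n) F)) atTop (𝓝 (mM F)) := by
  have h1 := lim_theta atTop e he (fun x _ => x ^ 2) (by fun_prop) (fun x _ => le_rfl) F F hF
  have h2 : ∀ A : ℤ[X], (∫ t in (0:ℝ)..1, Real.log (‖ev1 A t‖ ^ 2)) = 2 * Real.log (m1 A) := by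
    intro A
    rw [D_log_m1, ← intervalIntegral.integral_const_mul]
    apply intervalIntegral.integral_congr
    intro t _
    simp only [Real.log_pow]
    push_cast
    ring
  have h3 : (∫ t in Set.Icc (0 : Fin k → ℝ) 1, Real.log (‖tv F t‖ ^ 2)) =
      2 * Real.log (mM F) := by
    rw [mM, Real.log_exp, ← integral_const_mul]
    apply integral_congr_ae
    filter_upwards with t
    rw [Real.log_pow]
    push_cast
    ring
  simp only [h2, h3] at h1
  have h4 : Tendsto (fun n => Real.exp (2 * Real.log (m1 (spec (e n) F)) / 2)) atTop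
      (𝓝 (Real.exp (2 * Real.log (mM F) / 2))) :=
    (Real.continuous_exp.tendsto _).comp (h1.div_const 2)
  have h5 : Real.exp (2 * Real.log (mM F) / 2) = mM F := by
    rw [mul_div_cancel_left₀ _ (two_ne_zero), Real.exp_log]
    exact Real.exp_pos _
  rw [h5] at h4
  refine h4.congr' ?_
  filter_upwards [spec_ne_zero atTop e he F hF] with n hn
  rw [mul_div_cancel_left₀ _ (two_ne_zero), Real.exp_log]
  exact lt_of_lt_of_le one_pos (one_le_MM hn)

end Pool.Agent.Run7.h80.Bd
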