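import Mathlib
import Pool.Agent.Run7.h80.Bd.Multi

/-!
# Bounded companions for compositions
-/

set_option autoImplicit false

open Polynomial MeasureTheory Filter Topology

namespace Pool.Agent.Run7.h80.Bd

open Pool.Agent.Run7.h80.Comp Pool.Agent.Run7.h80.Sym Pool.Agent.H261R2.CM
open Pool.Agent.TH845.KN (dt dt_add sp sp_coeff sp_coeff_ne spec_eq_sp eventually_sep sp_monomial BC)

/-- the substitution in a composition -/
lemma spec_pcomp {k : ℕ} (e : Fin k → ℕ) (g : ℤ[X]) (P : MvPolynomial (Fin k) ℤ)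
    (s : Fin k →₀ ℕ) : spec e (pcomp g P (MvPolynomial.monomial s 1)) =
      pcomp g (spec e P) (X ^ dt e s) := by
  have h1 := map_pcomp ((spec e : MvPolynomial (Fin k) ℤ →ₐ[ℤ] ℤ[X]) : MvPolynomial (Fin k) ℤ →+* ℤ[X])
    g P (MvPolynomial.monomial s 1)
  have h2 : spec e (MvPolynomial.monomial s 1) = X ^ dt e s := by
    rw [spec_eq_sp, sp_monomial, ← C_mul_X_pow_eq_monomial, C_1, one_mul]
  change spec e (pcomp g P (MvPolynomial.monomial s 1)) = pcomp g (spec e P)
    (spec e (MvPolynomial.monomial s 1)) at h1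
  rw [h1, h2]

lemma not_mono_of_not_excl {k : ℕ} {P : MvPolynomial (Fin k) ℤ} {s : Fin k →₀ ℕ}
    (h : ¬ Excl P s) (c : ℤ) : P ≠ MvPolynomial.monomial s c := by
  intro hP
  apply h
  refine ⟨1, 0, c - 1, s, 0, by norm_num, Or.inl rfl, ?_⟩
  rw [hP, map_zero, add_zero, ← map_add]
  congr 1
  ring

/-- the specialisations -/
lemma good_spec {k : ℕ} {P : MvPolynomial (Fin k) ℤ} {s : Fin k →₀ ℕ}
    (hP : ∀ c : ℤ, P ≠ MvPolynomial.monomial s c) :
    ∀ᶠ n : ℕ in atTop, PI (spec (fun i : Fin k => n ^ (i : ℕ)) P)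
      (dt (fun i : Fin k => n ^ (i : ℕ)) s) := by
  classical
  filter_upwards [eventually_sep (insert s P.support)] with n hsep
  set e : Fin k → ℕ := fun i => n ^ (i : ℕ) with he
  have hsS : s ∈ insert s P.support := Finset.mem_insert_self _ _
  have hS : P.support ⊆ insert s P.support := Finset.subset_insert _ _
  have hinj : ∀ x ∈ insert s P.support, ∀ y ∈ insert s P.support, dt e x = dt e y → x = y := by
    intro x hx y hy hxy
    have h1 := hsep x hx x hx y hy y hy (by rw [hxy])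
    ext i
    have h2 := DFunLike.congr_fun h1 i
    simp only [Finsupp.add_apply] at h2
    omega
  apply PI_all
  intro c hc
  apply hP (P.coeff s)
  ext x
  rw [MvPolynomial.coeff_monomial]
  by_cases hx : s = x
  · rw [if_pos hx, ← hx]
  · rw [if_neg hx]
    by_contra hne
    have hxs : x ∈ P.support := MvPolynomial.mem_support_iff.2 hne
    have h1 := spc hS hinj (hS hxs)
    rw [hc, coeff_C_mul, coeff_X_pow, if_neg, mul_zero] at h1
    · exact hne h1.symm
    · intro h2
      exact hx (hinj x (hS hxs) s hsS h2).symm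

/-- the one variable bound along the specialisations -/
lemma lower_spec {k : ℕ} {P : MvPolynomial (Fin k) ℤ} {s : Fin k →₀ ℕ} (hP : ¬ Excl P s) :
    ∀ᶠ n : ℕ in atTop, ∀ g : ℤ[X], Irreducible g → 3 ≤ g.natDegree →
      Real.exp (g.natDegree / 400000) ≤ m1 (pcomp g (spec (fun i : Fin k => n ^ (i : ℕ)) P)
        (X ^ dt (fun i : Fin k => n ^ (i : ℕ)) s)) ∧
      1.002 ≤ m1 (pcomp g (spec (fun i : Fin k => n ^ (i : ℕ)) P)
        (X ^ dt (fun i : Fin k => n ^ (i : ℕ)) s)) := by
  classical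
  filter_upwards [eventually_sep (insert s P.support)] with n hsep g hg h3
  set e : Fin k → ℕ := fun i => n ^ (i : ℕ) with he
  set A := spec e P with hA
  set N := dt e s with hN
  set h : LP := LaurentPolynomial.T (-(N : ℤ)) * toLaurent A with hh
  have hAh : toLaurent A = (LaurentPolynomial.T N : LP) * h := by
    rw [hh, ← mul_assoc, ← LaurentPolynomial.T_add, add_neg_cancel, LaurentPolynomial.T_zero,
      one_mul]
  obtain ⟨E, hE, hb⟩ := full h (by
    intro ε δ c m hε hδ he2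
    obtain ⟨j, a, b, hab, he3⟩ := excl_poly hAh he2
    exact hP (excl_of_spec hsep hε hδ hab he3))
  obtain ⟨b1, b2⟩ := hb g (pcomp g A (X ^ N)) (g.natDegree * N) hg.ne_zero (toLaurent_pcomp hAh g)
  rw [outE_irreducible hg h3 hE.2] at b1 b2
  exact ⟨b1, b2 (by omega)⟩

lemma pcomp_ne_zero_of_PI {g : ℤ[X]} (hg : g ≠ 0) {A : ℤ[X]} {n : ℕ} (h : PI A n) :
    pcomp g A (X ^ n) ≠ 0 := by
  intro h0
  have h1 := MM_pcomp g A (X ^ n)
  rw [h0, Polynomial.map_pow, map_X] at h1
  have h2 : MM 0 = 0 := by simp [MM]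
  rw [h2] at h1
  obtain ⟨p1, _⟩ := le_prod_of_one_le (T := rts g) (F := fun t => (pn A n t).mahlerMeasure) h.1
  have ha1 : (1 : ℝ) ≤ |(g.leadingCoeff : ℝ)| := by
    exact_mod_cast Int.one_le_abs (leadingCoeff_ne_zero.2 hg)
  have h3 : (1 : ℝ) ≤ |(g.leadingCoeff : ℝ)| *
      ((rts g).map fun t => (pn A n t).mahlerMeasure).prod := by nlinarith
  have h4 : (0 : ℝ) = |(g.leadingCoeff : ℝ)| *
      ((rts g).map fun t => (pn A n t).mahlerMeasure).prod := h1
  linarith

/-- the composition is not zero -/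
lemma comp_ne {k : ℕ} {P : MvPolynomial (Fin k) ℤ} {s : Fin k →₀ ℕ}
    (hP : ∀ c : ℤ, P ≠ MvPolynomial.monomial s c) {g : ℤ[X]} (hg : g ≠ 0) :
    pcomp g P (MvPolynomial.monomial s 1) ≠ 0 := by
  intro h0
  obtain ⟨n, hn⟩ := (good_spec hP).exists
  apply pcomp_ne_zero_of_PI hg hn
  rw [← spec_pcomp, h0, map_zero]

/-- **the lower bound in several variables** -/
theorem lower_multi {k : ℕ} {P : MvPolynomial (Fin k) ℤ} {s : Fin k →₀ ℕ} (hP : ¬ Excl P s)
    {g : ℤ[X]} (hg : Irreducible g) (h3 : 3 ≤ g.natDegree) :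
    Real.exp (g.natDegree / 400000) ≤ mM (pcomp g P (MvPolynomial.monomial s 1)) ∧
    1.002 ≤ mM (pcomp g P (MvPolynomial.monomial s 1)) := by
  have hF := comp_ne (not_mono_of_not_excl hP) hg.ne_zero
  have hlim := boyd_lawton _ (asympIndep_pow k) _ hF
  have hev := lower_spec hP
  constructor
  · apply ge_of_tendsto hlim
    filter_upwards [hev] with n hn
    rw [spec_pcomp]
    exact (hn g hg h3).1
  · apply ge_of_tendsto hlim
    filter_upwards [hev] with n hn
    rw [spec_pcomp]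
    exact (hn g hg h3).2

/-- the measures of the compositions -/
def TC (D : ℕ) : Set ℝ := {x : ℝ | ∃ (k : ℕ) (g : ℤ[X]) (P : MvPolynomial (Fin k) ℤ)
  (s : Fin k →₀ ℕ), Irreducible g ∧ ((3 ≤ g.natDegree ∧ ¬ Excl P s) ∨
    (2 ≤ g.natDegree ∧ g.natDegree ≤ D ∧ ∀ c : ℤ, P ≠ MvPolynomial.monomial s c)) ∧
    x = mM (pcomp g P (MvPolynomial.monomial s 1))}

/-- **bounded companions** -/
theorem BC_TC (D : ℕ) : BC (TC D) := by
  intro B
  set B' := max B 1 with hB'
  have hB1 : 1 ≤ B' := le_max_right _ _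
  set D' : ℝ := max (max 1 D) (400000 * Real.log B') with hD'
  have hD1 : 1 ≤ D' := (le_max_left _ _).trans (le_max_left _ _)
  obtain ⟨K, hK⟩ := one_bound hB1 hD1
  refine ⟨K, ?_⟩
  rintro x ⟨⟨k, g, P, s, hg, hcase, rfl⟩, hx⟩
  have hx' : mM (pcomp g P (MvPolynomial.monomial s 1)) < B := hx
  have hmono : ∀ c : ℤ, P ≠ MvPolynomial.monomial s c := by
    rcases hcase with h | h
    · exact not_mono_of_not_excl h.2
    · exact h.2.2
  have h2 : 2 ≤ g.natDegree := by
    rcases hcase with h | h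
    · omega
    · exact h.1
  have hF := comp_ne hmono hg.ne_zero
  have hlim := boyd_lawton _ (asympIndep_pow k) _ hF
  have hlt : ∀ᶠ n : ℕ in atTop, m1 (spec (fun i : Fin k => n ^ (i : ℕ))
      (pcomp g P (MvPolynomial.monomial s 1))) < B := hlim.eventually_lt_const hx'
  -- the degree
  have hdeg : (g.natDegree : ℝ) ≤ D' := by
    rcases hcase with h | h
    · have hev := lower_spec h.2
      obtain ⟨n, hn1, hn2⟩ := (hev.and hlt).exists
      have h3 := (hn1 g hg h.1).1
      rw [spec_pcomp] at hn2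
      have h4 : Real.exp (g.natDegree / 400000) ≤ B' := h3.trans (hn2.le.trans (le_max_left _ _))
      rw [← Real.le_log_iff_exp_le (by linarith)] at h4
      refine le_trans ?_ (le_max_right _ _)
      linarith
    · have h3 : (g.natDegree : ℝ) ≤ D := by exact_mod_cast h.2.1
      exact h3.trans ((le_max_right _ _).trans (le_max_left _ _))
  apply (closed_LL K).mem_of_tendsto hlim
  filter_upwards [hlt, good_spec hmono] with n hn1 hn2
  rw [spec_pcomp] at hn1 ⊢
  have h3 := hK g hg h2 hdeg _ _ hn2 (hn1.le.trans (le_max_left _ _))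
  exact Pool.Agent.W242.IM.m1_mem_LL _ 1 (pcomp_ne_zero_of_PI hg.ne_zero hn2) one_ne_zero
    isRelPrime_one_right K h3

end Pool.Agent.Run7.h80.Bd
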